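import Pool.Agent.Helper13.Venn.Defs

/-! # VD-8: the slit quadrants are homeomorphic to the plane -/

namespace Pool.Agent.Helper13.Venn

open Set Metric Topology Bornology

namespace VD8

/-- a homeomorphism between subsets from a pair of mutually inverse maps -/
theorem homeo_of_sets {X Y : Type*} [TopologicalSpace X] [TopologicalSpace Y] (s : Set X)
    (t : Set Y) (f : X → Y) (h : Y → X) (hf : ContinuousOn f s) (hh : ContinuousOn h t)
    (hst : MapsTo f s t) (hts : MapsTo h t s) (hl : ∀ x ∈ s, h (f x) = x)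
    (hr : ∀ y ∈ t, f (h y) = y) : Nonempty (s ≃ₜ t) :=
  ⟨{ toFun := fun x => ⟨f x.1, hst x.2⟩
     invFun := fun y => ⟨h y.1, hts y.2⟩
     left_inv := fun x => Subtype.ext (hl x.1 x.2)
     right_inv := fun y => Subtype.ext (hr y.1 y.2)
     continuous_toFun := (continuousOn_iff_continuous_domRestrict.1 hf).subtype_mk _
     continuous_invFun := (continuousOn_iff_continuous_domRestrict.1 hh).subtype_mk _ }⟩

theorem slit {X : Type*} [TopologicalSpace X] (D : Set X) (m : X → ℝ) (hm : ContinuousOn m D)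
    (h0 : ∀ x ∈ D, 0 ≤ m x) (c : ℝ) (hc : 0 < c) :
    Nonempty ({q : X × ℝ | q.1 ∈ D ∧ 0 < q.2 ∧ (0 < m q.1 ∨ c < q.2)} ≃ₜ
      {q : X × ℝ | q.1 ∈ D ∧ 0 < q.2}) := by
  refine homeo_of_sets _ _
    (fun q => (q.1, m q.1 * min q.2 c + max 0 (q.2 - c)))
    (fun q => (q.1, c * q.2 / max q.2 (m q.1 * c) + max 0 (q.2 - m q.1 * c))) ?_ ?_ ?_ ?_ ?_ ?_
  · have h1 : ContinuousOn (fun q : X × ℝ => m q.1)
        {q : X × ℝ | q.1 ∈ D ∧ 0 < q.2 ∧ (0 < m q.1 ∨ c < q.2)} :=
      hm.comp continuousOn_fst (fun q hq => hq.1)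
    have h2 : ContinuousOn (fun q : X × ℝ => min q.2 c)
        {q : X × ℝ | q.1 ∈ D ∧ 0 < q.2 ∧ (0 < m q.1 ∨ c < q.2)} :=
      (by fun_prop : Continuous (fun q : X × ℝ => min q.2 c)).continuousOn
    have h3 : ContinuousOn (fun q : X × ℝ => max 0 (q.2 - c))
        {q : X × ℝ | q.1 ∈ D ∧ 0 < q.2 ∧ (0 < m q.1 ∨ c < q.2)} :=
      (by fun_prop : Continuous (fun q : X × ℝ => max 0 (q.2 - c))).continuousOn
    exact continuousOn_fst.prodMk ((h1.mul h2).add h3)
  · have h1 : ContinuousOn (fun q : X × ℝ => m q.1) {q : X × ℝ | q.1 ∈ D ∧ 0 < q.2} :=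
      hm.comp continuousOn_fst (fun q hq => hq.1)
    have h2 : ContinuousOn (fun q : X × ℝ => q.2) {q : X × ℝ | q.1 ∈ D ∧ 0 < q.2} :=
      continuousOn_snd
    have h3 : ContinuousOn (fun q : X × ℝ => max q.2 (m q.1 * c))
        {q : X × ℝ | q.1 ∈ D ∧ 0 < q.2} :=
      ContinuousOn.sup h2 (h1.mul continuousOn_const)
    have h4 : ContinuousOn (fun q : X × ℝ => max 0 (q.2 - m q.1 * c))
        {q : X × ℝ | q.1 ∈ D ∧ 0 < q.2} :=
      ContinuousOn.sup continuousOn_const (h2.sub (h1.mul continuousOn_const))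
    refine continuousOn_fst.prodMk (((continuousOn_const.mul h2).div h3 ?_).add h4)
    intro q hq
    exact (lt_of_lt_of_le hq.2 (le_max_left _ _)).ne'
  · rintro ⟨x, y⟩ ⟨hx, hy, h⟩
    have hmx := h0 x hx
    refine ⟨hx, ?_⟩
    change 0 < m x * min y c + max 0 (y - c)
    rcases h with h | h
    · have : 0 < m x * min y c := mul_pos h (lt_min hy hc)
      have := le_max_left 0 (y - c)
      linarith
    · have : 0 ≤ m x * min y c := mul_nonneg hmx (lt_min hy hc).le
      have := le_max_right 0 (y - c)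
      change c < y at h
      linarith
  · rintro ⟨x, t⟩ ⟨hx, ht⟩
    have hmx := h0 x hx
    change 0 < t at ht
    have hM : 0 < max t (m x * c) := lt_of_lt_of_le ht (le_max_left _ _)
    refine ⟨hx, ?_, ?_⟩
    · change 0 < c * t / max t (m x * c) + max 0 (t - m x * c)
      have : 0 < c * t / max t (m x * c) := div_pos (mul_pos hc ht) hM
      have := le_max_left 0 (t - m x * c)
      linarith
    · change 0 < m x ∨ c < c * t / max t (m x * c) + max 0 (t - m x * c)
      rcases le_or_gt t (m x * c) with h | h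
      · left
        by_contra hn
        have : m x = 0 := le_antisymm (not_lt.1 hn) hmx
        rw [this, zero_mul] at h
        linarith
      · right
        rw [max_eq_left h.le, max_eq_right (sub_nonneg.2 h.le), mul_div_assoc, div_self ht.ne']
        linarith
  · rintro ⟨x, y⟩ ⟨hx, hy, h⟩
    have hmx := h0 x hx
    change 0 < y at hy
    change 0 < m x ∨ c < y at h
    change (x, c * (m x * min y c + max 0 (y - c)) / max (m x * min y c + max 0 (y - c)) (m x * c)
      + max 0 ((m x * min y c + max 0 (y - c)) - m x * c)) = (x, y)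
    congr 1
    rcases le_or_gt y c with hyc | hyc
    · have hm0 : 0 < m x := by
        rcases h with h | h
        · exact h
        · exact absurd h (not_lt.2 hyc)
      have hle : m x * y ≤ m x * c := mul_le_mul_of_nonneg_left hyc hmx
      rw [min_eq_left hyc, max_eq_left (sub_nonpos.2 hyc), add_zero, max_eq_right hle,
        max_eq_left (sub_nonpos.2 hle)]
      field_simp
      ring
    · have hlt : m x * c < m x * c + (y - c) := by linarith
      have hpos : 0 < m x * c + (y - c) := by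
        have := mul_nonneg hmx hc.le
        linarith
      rw [min_eq_right hyc.le, max_eq_right (sub_nonneg.2 hyc.le), max_eq_left hlt.le,
        max_eq_right (by linarith), mul_div_assoc, div_self hpos.ne']
      ring
  · rintro ⟨x, t⟩ ⟨hx, ht⟩
    have hmx := h0 x hx
    change 0 < t at ht
    change (x, m x * min (c * t / max t (m x * c) + max 0 (t - m x * c)) c +
      max 0 ((c * t / max t (m x * c) + max 0 (t - m x * c)) - c)) = (x, t)
    congr 1
    rcases le_or_gt t (m x * c) with h | h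
    · have hm0 : 0 < m x := by
        by_contra hn
        have : m x = 0 := le_antisymm (not_lt.1 hn) hmx
        rw [this, zero_mul] at h
        linarith
      rw [max_eq_right h, max_eq_left (sub_nonpos.2 h), add_zero]
      have e : c * t / (m x * c) = t / m x := by
        field_simp
      rw [e]
      have hle : t / m x ≤ c := by
        rw [div_le_iff₀ hm0]
        linarith [mul_comm (m x) c]
      rw [min_eq_left hle, max_eq_left (sub_nonpos.2 hle), add_zero, mul_div_assoc']
      rw [mul_comm, mul_div_assoc, div_self hm0.ne', mul_one]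
    · rw [max_eq_left h.le, max_eq_right (sub_nonneg.2 h.le), mul_div_assoc, div_self ht.ne',
        mul_one, min_eq_right (by linarith), max_eq_right (by linarith)]
      ring

theorem half_plane : Nonempty ({q : ℝ × ℝ | q.1 ∈ (univ : Set ℝ) ∧ 0 < q.2} ≃ₜ ℝ × ℝ) := by
  obtain ⟨e⟩ := homeo_of_sets {q : ℝ × ℝ | q.1 ∈ (univ : Set ℝ) ∧ 0 < q.2} (univ : Set (ℝ × ℝ))
    (fun q => (q.1, Real.log q.2)) (fun q => (q.1, Real.exp q.2))
    (continuousOn_fst.prodMk (ContinuousOn.log continuousOn_snd (fun q hq => hq.2.ne')))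
    (by fun_prop) (fun q _ => mem_univ _) (fun q _ => ⟨mem_univ _, Real.exp_pos _⟩)
    (fun q hq => by
      change (q.1, Real.exp (Real.log q.2)) = q
      rw [Real.exp_log hq.2])
    (fun q _ => by
      change (q.1, Real.log (Real.exp q.2)) = q
      rw [Real.log_exp])
  exact ⟨e.trans (Homeomorph.Set.univ _)⟩

end VD8

open VD8

theorem planar_all (a b : ℝ) (ha : a = 1 ∨ a = -1) (hb : b = 1 ∨ b = -1) :
    Nonempty ({q : ℝ × ℝ | 0 < a * q.1 ∧ 0 < b * q.2} ≃ₜ ℝ × ℝ) := by
  have ha2 : a * a = 1 := by rcases ha with rfl | rfl <;> norm_num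
  have hb2 : b * b = 1 := by rcases hb with rfl | rfl <;> norm_num
  obtain ⟨e⟩ := homeo_of_sets {q : ℝ × ℝ | 0 < a * q.1 ∧ 0 < b * q.2} (univ : Set (ℝ × ℝ))
    (fun q => (Real.log (a * q.1), Real.log (b * q.2)))
    (fun q => (a * Real.exp q.1, b * Real.exp q.2))
    ((ContinuousOn.log (by fun_prop) (fun q hq => hq.1.ne')).prodMk
      (ContinuousOn.log (by fun_prop) (fun q hq => hq.2.ne')))
    (by fun_prop) (fun q _ => mem_univ _)
    (fun q _ => by
      change 0 < a * (a * Real.exp q.1) ∧ 0 < b * (b * Real.exp q.2)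
      rw [← mul_assoc, ← mul_assoc, ha2, hb2, one_mul, one_mul]
      exact ⟨Real.exp_pos _, Real.exp_pos _⟩)
    (fun q hq => by
      change (a * Real.exp (Real.log (a * q.1)), b * Real.exp (Real.log (b * q.2))) = q
      rw [Real.exp_log hq.1, Real.exp_log hq.2, ← mul_assoc, ← mul_assoc, ha2, hb2, one_mul,
        one_mul])
    (fun q _ => by
      change (Real.log (a * (a * Real.exp q.1)), Real.log (b * (b * Real.exp q.2))) = q
      rw [← mul_assoc, ← mul_assoc, ha2, hb2, one_mul, one_mul, Real.log_exp, Real.log_exp])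
  exact ⟨e.trans (Homeomorph.Set.univ _)⟩

namespace VD8

/-- if the extra condition is automatic the set is the whole quadrant -/
theorem planar_auto (a b : ℝ) (ha : a = 1 ∨ a = -1) (hb : b = 1 ∨ b = -1) (F : ℝ → ℝ → ℝ)
    (hF : ∀ y z, 0 < a * y → 0 < b * z → 0 < F y z) :
    Nonempty ({q : ℝ × ℝ | (0 < a * q.1 ∧ 0 < b * q.2) ∧ 0 < F q.1 q.2} ≃ₜ ℝ × ℝ) := by
  obtain ⟨e⟩ := planar_all a b ha hb
  refine ⟨(Homeomorph.setCongr ?_).trans e⟩
  ext q
  exact ⟨fun h => h.1, fun h => ⟨h, hF _ _ h.1 h.2⟩⟩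

theorem pos_neg_x (y z : ℝ) : 0 < FU (-1) y z ∧ 0 < FL (-1) y z := by
  unfold FU FL phi
  have hy := abs_nonneg (y - 2 * (-1))
  have hz := abs_nonneg z
  have h1 : |(|y - 2 * (-1)| + |z| - (-1))| = |y - 2 * (-1)| + |z| - (-1) :=
    abs_of_nonneg (by linarith)
  have h2 : |(-1 : ℝ)| = 1 := by norm_num
  rw [h1, h2]
  have h3 := le_max_left 0 (2 * (-1) - y)
  have h4 := le_max_left 0 (y - 2 * (-1))
  have h5 := abs_nonneg (y - (-1))
  have h6 := abs_nonneg (y - 3 * (-1))
  exact ⟨lt_min (by linarith) (by linarith), lt_min (by linarith) (by linarith)⟩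

theorem pos_neg_y (y z : ℝ) (hy : 0 < (-1) * y) : 0 < FU 1 y z ∧ 0 < FL 1 y z := by
  unfold FU FL phi
  have hy' : y < 0 := by linarith
  have hz := abs_nonneg z
  have h0 : |y - 2 * 1| = 2 - y := by rw [abs_of_neg (by linarith)]; ring
  have h1 : |(|y - 2 * 1| + |z| - 1)| = 1 - y + |z| := by
    rw [h0, abs_of_pos (by linarith)]
    ring
  have h5 : |y - 1| = 1 - y := by rw [abs_of_neg (by linarith)]; ring
  have h6 : |y - 3 * 1| = 3 - y := by rw [abs_of_neg (by linarith)]; ring
  have h7 : |(1 : ℝ)| = 1 := abs_one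
  rw [h1, h5, h6, h7]
  have h3 := le_max_left 0 (2 * 1 - y)
  have h4 := le_max_left 0 (y - 2 * 1)
  exact ⟨lt_min (by linarith) (by linarith), lt_min (by linarith) (by linarith)⟩

/-- in the quadrant `0 < y`, `0 < z` at `x = 1` -/
theorem FU_iff (y z : ℝ) (hz : 0 < |z|) :
    0 < FU 1 y z ↔ (y + |z| ≠ 3 ∨ y < 2) := by
  unfold FU phi
  have h7 : |(1 : ℝ)| = 1 := abs_one
  rw [h7]
  have h5 := abs_nonneg (y - 1)
  have h8 := abs_nonneg (|y - 2 * 1| + |z| - 1)
  have h9 := le_max_left 0 (2 * 1 - y)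
  constructor
  · intro h
    by_contra hc
    push Not at hc
    obtain ⟨hc1, hc2⟩ := hc
    have h0 : |y - 2 * 1| = y - 2 := by rw [abs_of_nonneg (by linarith)]; ring
    have h1 : |(|y - 2 * 1| + |z| - 1)| = 0 := by
      rw [h0, abs_eq_zero]
      linarith
    have h2 : max 0 (2 * 1 - y) = 0 := max_eq_left (by linarith)
    rw [h1, h2] at h
    have := lt_of_lt_of_le h (min_le_left _ _)
    linarith
  · intro h
    refine lt_min ?_ (by linarith)
    by_contra hc
    rw [not_lt] at hc
    have h1 : |(|y - 2 * 1| + |z| - 1)| = 0 := by linarith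
    have h2 : max 0 (2 * 1 - y) = 0 := by linarith
    have h3 : 2 * 1 - y ≤ 0 := by rw [← h2]; exact le_max_right _ _
    have h0 : |y - 2 * 1| = y - 2 := by rw [abs_of_nonneg (by linarith)]; ring
    rw [abs_eq_zero, h0] at h1
    rcases h with h | h
    · exact h (by linarith)
    · linarith

theorem FL_iff (y z : ℝ) (hz : 0 < |z|) :
    0 < FL 1 y z ↔ (y - |z| ≠ 1 ∨ 2 < y) := by
  unfold FL phi
  have h7 : |(1 : ℝ)| = 1 := abs_one
  rw [h7]
  have h5 := abs_nonneg (y - 3 * 1)
  have h8 := abs_nonneg (|y - 2 * 1| + |z| - 1)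
  have h9 := le_max_left 0 (y - 2 * 1)
  constructor
  · intro h
    by_contra hc
    push Not at hc
    obtain ⟨hc1, hc2⟩ := hc
    have h0 : |y - 2 * 1| = 2 - y := by rw [abs_of_nonpos (by linarith)]; ring
    have h1 : |(|y - 2 * 1| + |z| - 1)| = 0 := by
      rw [h0, abs_eq_zero]
      linarith
    have h2 : max 0 (y - 2 * 1) = 0 := max_eq_left (by linarith)
    rw [h1, h2] at h
    have := lt_of_lt_of_le h (min_le_left _ _)
    linarith
  · intro h
    refine lt_min ?_ (by linarith)
    by_contra hc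
    rw [not_lt] at hc
    have h1 : |(|y - 2 * 1| + |z| - 1)| = 0 := by linarith
    have h2 : max 0 (y - 2 * 1) = 0 := by linarith
    have h3 : y - 2 * 1 ≤ 0 := by rw [← h2]; exact le_max_right _ _
    have h0 : |y - 2 * 1| = 2 - y := by rw [abs_of_nonpos (by linarith)]; ring
    rw [abs_eq_zero, h0] at h1
    rcases h with h | h
    · exact h (by linarith)
    · linarith

theorem abs_of_sign {b z : ℝ} (hb : b = 1 ∨ b = -1) (h : 0 < b * z) : |z| = b * z := by
  rcases hb with rfl | rfl
  · rw [one_mul] at h ⊢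
    exact abs_of_pos h
  · rw [abs_of_neg (by linarith)]
    ring

theorem quadrant_slit :
    Nonempty ({q : ℝ × ℝ | q.1 ∈ Ioi (0 : ℝ) ∧ 0 < q.2 ∧ (0 < |q.1 - 3| ∨ 1 / 2 < q.2)} ≃ₜ
      ℝ × ℝ) := by
  obtain ⟨e⟩ := slit (Ioi (0 : ℝ)) (fun x => |x - 3|) (by fun_prop) (fun x _ => abs_nonneg _)
    (1 / 2) (by norm_num)
  obtain ⟨e'⟩ := planar_all 1 1 (Or.inl rfl) (Or.inl rfl)
  refine ⟨e.trans ((Homeomorph.setCongr ?_).trans e')⟩
  ext q
  simp only [mem_ofPred_eq, mem_Ioi, one_mul]

theorem FU_chart (b : ℝ) (hb : b = 1 ∨ b = -1) :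
    Nonempty ({q : ℝ × ℝ | (0 < 1 * q.1 ∧ 0 < b * q.2) ∧ 0 < FU 1 q.1 q.2} ≃ₜ
      {q : ℝ × ℝ | q.1 ∈ Ioi (0 : ℝ) ∧ 0 < q.2 ∧ (0 < |q.1 - 3| ∨ 1 / 2 < q.2)}) := by
  have hb2 : b * b = 1 := by rcases hb with rfl | rfl <;> norm_num
  refine homeo_of_sets _ _ (fun q => (q.1 + b * q.2, b * q.2 / q.1))
    (fun p => (p.1 / (1 + p.2), b * (p.1 * p.2 / (1 + p.2)))) ?_ ?_ ?_ ?_ ?_ ?_
  · refine ContinuousOn.prodMk (by fun_prop) (ContinuousOn.div (by fun_prop) (by fun_prop) ?_)
    intro q hq
    have := hq.1.1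
    rw [one_mul] at this
    exact this.ne'
  · refine ContinuousOn.prodMk (ContinuousOn.div (by fun_prop) (by fun_prop) ?_)
      (ContinuousOn.mul (by fun_prop) (ContinuousOn.div (by fun_prop) (by fun_prop) ?_))
    · intro q hq
      have := hq.2.1
      positivity
    · intro q hq
      have := hq.2.1
      positivity
  · rintro ⟨y, z⟩ ⟨⟨hy, hz⟩, h⟩
    change 0 < 1 * y at hy
    change 0 < b * z at hz
    change 0 < FU 1 y z at h
    rw [one_mul] at hy
    have hz' := abs_of_sign hb hz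
    rw [FU_iff y z (by rw [hz']; exact hz), hz'] at h
    refine ⟨?_, div_pos hz hy, ?_⟩
    · change 0 < y + b * z
      linarith
    · change 0 < |y + b * z - 3| ∨ 1 / 2 < b * z / y
      rcases ne_or_eq (y + b * z) 3 with h3 | h3
      · left
        rw [abs_pos]
        intro h4
        exact h3 (by linarith)
      · right
        rcases h with h | h
        · exact absurd h3 h
        · rw [lt_div_iff₀ hy]
          linarith
  · rintro ⟨P, R⟩ ⟨hP, hR, h⟩
    change 0 < P at hP
    change 0 < R at hR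
    change 0 < |P - 3| ∨ 1 / 2 < R at h
    have hR1 : 0 < 1 + R := by linarith
    have hy : 0 < P / (1 + R) := div_pos hP hR1
    have hz : 0 < b * (b * (P * R / (1 + R))) := by
      rw [← mul_assoc, hb2, one_mul]
      positivity
    have hz' := abs_of_sign hb hz
    have e2 : b * (b * (P * R / (1 + R))) = P * R / (1 + R) := by
      rw [← mul_assoc, hb2, one_mul]
    refine ⟨⟨?_, hz⟩, ?_⟩
    · change 0 < 1 * (P / (1 + R))
      rw [one_mul]
      exact hy
    · change 0 < FU 1 (P / (1 + R)) (b * (P * R / (1 + R)))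
      rw [FU_iff _ _ (by rw [hz']; exact hz), hz', e2]
      have e3 : P / (1 + R) + P * R / (1 + R) = P := by
        field_simp
      rw [e3]
      rcases h with h | h
      · left
        intro h4
        rw [h4] at h
        simp at h
      · rcases ne_or_eq P 3 with h3 | h3
        · exact Or.inl h3
        · right
          rw [div_lt_iff₀ hR1]
          linarith
  · rintro ⟨y, z⟩ ⟨⟨hy, hz⟩, h⟩
    change 0 < 1 * y at hy
    change 0 < b * z at hz
    rw [one_mul] at hy
    change ((y + b * z) / (1 + b * z / y), b * ((y + b * z) * (b * z / y) / (1 + b * z / y)))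
      = (y, z)
    have hne : y + b * z ≠ 0 := by linarith
    have e1 : 1 + b * z / y = (y + b * z) / y := by
      field_simp
    have e2 : (y + b * z) / (1 + b * z / y) = y := by
      rw [e1]
      field_simp
    have e3 : (y + b * z) * (b * z / y) / (1 + b * z / y) = b * z := by
      rw [e1]
      field_simp
    rw [e2, e3, ← mul_assoc, hb2, one_mul]
  · rintro ⟨P, R⟩ ⟨hP, hR, h⟩
    change 0 < P at hP
    change 0 < R at hR
    change (P / (1 + R) + b * (b * (P * R / (1 + R))), b * (b * (P * R / (1 + R))) / (P / (1 + R)))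
      = (P, R)
    have e2 : b * (b * (P * R / (1 + R))) = P * R / (1 + R) := by
      rw [← mul_assoc, hb2, one_mul]
    have hR1 : (1 + R) ≠ 0 := by linarith
    rw [e2]
    congr 1
    · field_simp
    · field_simp

theorem FL_chart (b : ℝ) (hb : b = 1 ∨ b = -1) :
    Nonempty ({q : ℝ × ℝ | (0 < 1 * q.1 ∧ 0 < b * q.2) ∧ 0 < FL 1 q.1 q.2} ≃ₜ
      {q : ℝ × ℝ | q.1 ∈ (univ : Set ℝ) ∧ 0 < q.2 ∧ (0 < |q.1 - 1| ∨ 1 < q.2)}) := by
  have hb2 : b * b = 1 := by rcases hb with rfl | rfl <;> norm_num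
  refine homeo_of_sets _ _ (fun q => (q.1 - b * q.2, min q.1 (b * q.2)))
    (fun p => (p.2 + max 0 p.1, b * (p.2 + max 0 (-p.1)))) (by fun_prop) (by fun_prop) ?_ ?_ ?_ ?_
  · rintro ⟨y, z⟩ ⟨⟨hy, hz⟩, h⟩
    change 0 < 1 * y at hy
    change 0 < b * z at hz
    change 0 < FL 1 y z at h
    rw [one_mul] at hy
    have hz' := abs_of_sign hb hz
    rw [FL_iff y z (by rw [hz']; exact hz), hz'] at h
    refine ⟨mem_univ _, lt_min hy hz, ?_⟩
    change 0 < |y - b * z - 1| ∨ 1 < min y (b * z)
    rcases ne_or_eq (y - b * z) 1 with h3 | h3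
    · left
      rw [abs_pos]
      intro h4
      exact h3 (by linarith)
    · right
      rcases h with h | h
      · exact absurd h3 h
      · exact lt_min (by linarith) (by linarith)
  · rintro ⟨P, M⟩ ⟨-, hM, h⟩
    change 0 < M at hM
    change 0 < |P - 1| ∨ 1 < M at h
    have h1 := le_max_left 0 P
    have h2 := le_max_left 0 (-P)
    have hz : 0 < b * (b * (M + max 0 (-P))) := by
      rw [← mul_assoc, hb2, one_mul]
      linarith
    have hz' := abs_of_sign hb hz
    have e2 : b * (b * (M + max 0 (-P))) = M + max 0 (-P) := by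
      rw [← mul_assoc, hb2, one_mul]
    refine ⟨⟨?_, hz⟩, ?_⟩
    · change 0 < 1 * (M + max 0 P)
      rw [one_mul]
      linarith
    · change 0 < FL 1 (M + max 0 P) (b * (M + max 0 (-P)))
      rw [FL_iff _ _ (by rw [hz']; exact hz), hz', e2]
      have e3 : M + max 0 P - (M + max 0 (-P)) = P := by
        rcases le_total 0 P with h0 | h0
        · rw [max_eq_right h0, max_eq_left (by linarith)]
          ring
        · rw [max_eq_left h0, max_eq_right (by linarith)]
          ring
      rw [e3]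
      rcases ne_or_eq P 1 with h3 | h3
      · exact Or.inl h3
      · right
        rcases h with h | h
        · rw [h3] at h
          simp at h
        · rw [h3, max_eq_right (by norm_num)]
          linarith
  · rintro ⟨y, z⟩ ⟨⟨hy, hz⟩, h⟩
    change 0 < 1 * y at hy
    change 0 < b * z at hz
    change (min y (b * z) + max 0 (y - b * z), b * (min y (b * z) + max 0 (-(y - b * z)))) = (y, z)
    rcases le_total y (b * z) with h0 | h0
    · rw [min_eq_left h0, max_eq_left (by linarith), max_eq_right (by linarith)]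
      have : y + -(y - b * z) = b * z := by ring
      rw [this, ← mul_assoc, hb2, one_mul, add_zero]
    · rw [min_eq_right h0, max_eq_right (by linarith), max_eq_left (by linarith)]
      have : b * z + (y - b * z) = y := by ring
      rw [this, add_zero, ← mul_assoc, hb2, one_mul]
  · rintro ⟨P, M⟩ ⟨-, hM, h⟩
    change (M + max 0 P - b * (b * (M + max 0 (-P))), min (M + max 0 P) (b * (b * (M + max 0 (-P)))))
      = (P, M)
    have e2 : b * (b * (M + max 0 (-P))) = M + max 0 (-P) := by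
      rw [← mul_assoc, hb2, one_mul]
    rw [e2]
    rcases le_total 0 P with h0 | h0
    · rw [max_eq_right h0, max_eq_left (by linarith), add_zero, min_eq_right (by linarith)]
      congr 1
      ring
    · rw [max_eq_left h0, max_eq_right (by linarith), add_zero, min_eq_left (by linarith)]
      congr 1
      ring

end VD8

theorem planar_FU (x a b : ℝ) (hx : x = 1 ∨ x = -1) (ha : a = 1 ∨ a = -1) (hb : b = 1 ∨ b = -1) :
    Nonempty ({q : ℝ × ℝ | (0 < a * q.1 ∧ 0 < b * q.2) ∧ 0 < FU x q.1 q.2} ≃ₜ ℝ × ℝ) := by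
  rcases hx with rfl | rfl
  · rcases ha with rfl | rfl
    · obtain ⟨e⟩ := FU_chart b hb
      obtain ⟨e'⟩ := quadrant_slit
      exact ⟨e.trans e'⟩
    · exact planar_auto (-1) b (Or.inr rfl) hb (FU 1) (fun y z hy _ => (pos_neg_y y z hy).1)
  · exact planar_auto a b ha hb (FU (-1)) (fun y z _ _ => (pos_neg_x y z).1)

theorem planar_FL (x a b : ℝ) (hx : x = 1 ∨ x = -1) (ha : a = 1 ∨ a = -1) (hb : b = 1 ∨ b = -1) :
    Nonempty ({q : ℝ × ℝ | (0 < a * q.1 ∧ 0 < b * q.2) ∧ 0 < FL x q.1 q.2} ≃ₜ ℝ × ℝ) := by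
  rcases hx with rfl | rfl
  · rcases ha with rfl | rfl
    · obtain ⟨e⟩ := FL_chart b hb
      obtain ⟨e'⟩ := slit (univ : Set ℝ) (fun x => |x - 1|) (by fun_prop)
        (fun x _ => abs_nonneg _) 1 one_pos
      obtain ⟨e''⟩ := half_plane
      exact ⟨e.trans (e'.trans e'')⟩
    · exact planar_auto (-1) b (Or.inr rfl) hb (FL 1) (fun y z hy _ => (pos_neg_y y z hy).2)
  · exact planar_auto a b ha hb (FL (-1)) (fun y z _ _ => (pos_neg_x y z).2)

end Pool.Agent.Helper13.Venn
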